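import Mathlib
import Pool.Agent.Results.MP_15d263_co.Aligned
import Pool.Agent.Results.MP_15d263_co.AllPairs

/-!
# In the square tiling every pair of disjoint tiles is the prototile of an isohedral tiling

`Plane`, `pt`, `sq`, `IsTiling`, `Monohedral`, `IsSymmetry`, `Isohedral` are the definitions of the
file `Pool.Agent.Results.MP_15d263_co.Aligned`.
-/

set_option autoImplicit false

namespace Pool.Agent.Results.MP_5a5b3b_co.SquareTiling

open Pool.Agent.Results.MP_15d263_co.Aligned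

/-- `A` is a closed topological disk: homeomorphic to the closed unit disk. -/
def IsDisk (A : Set Plane) : Prop := Nonempty (A ≃ₜ Metric.closedBall (0 : Plane) 1)

/-- The regular tiling by unit squares, with the centres of the squares at the points of `ℤ²`. -/
noncomputable def squareTiling : Set (Set Plane) := Set.range fun p : ℤ × ℤ => sq (pt p.1 p.2)

theorem isDisk_sq (c : Plane) : IsDisk (sq c) := by
  have hb : Bornology.IsBounded (sq c) := by
    refine (Metric.isBounded_iff_subset_closedBall c).2 ⟨1, ?_⟩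
    intro z hz
    have h := sq_subset_ball c z hz
    rw [Metric.mem_closedBall]
    nlinarith [dist_nonneg (x := z) (y := c)]
  obtain ⟨h, -, h2, -⟩ := exists_homeomorph_image_interior_closure_frontier_eq_unitBall
    (convex_sq c) ⟨c, mem_interior_sq c⟩ hb
  rw [(isClosed_sq c).closure_eq] at h2
  exact ⟨(h.image (sq c)).trans (Homeomorph.setCongr h2)⟩

theorem isTiling_squareTiling : IsTiling squareTiling := by
  refine ⟨Set.countable_range _, ?_, ?_, ?_⟩
  · rintro _ ⟨p, rfl⟩
    exact isClosed_sq _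
  · rw [Set.eq_univ_iff_forall]
    intro z
    refine ⟨_, ⟨(round (z 0), round (z 1)), rfl⟩, ?_, ?_⟩
    · simpa using abs_sub_round (z 0)
    · simpa using abs_sub_round (z 1)
  · rintro _ ⟨p, rfl⟩ _ ⟨q, rfl⟩ hne
    have hpq : ((p.1, p.2) : ℤ × ℤ) ≠ (q.1, q.2) := fun h => hne (by
      rw [Prod.mk.injEq] at h
      simp only [h.1, h.2])
    obtain ⟨i, r, h⟩ := sq_inter_sub 0 hpq
    have e : ∀ s : ℤ × ℤ, C 0 s.1 s.2 = pt s.1 s.2 := by
      intro s; simp [C]
    simp only [e] at h
    rw [Set.disjoint_iff_inter_eq_empty, ← interior_inter]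
    exact Set.eq_empty_of_subset_empty (interior_line i r ▸ interior_mono h)

theorem isohedral_squareTiling : Isohedral squareTiling := by
  rintro _ ⟨p, rfl⟩ _ ⟨q, rfl⟩
  have key : ∀ v s : ℤ × ℤ, (IsometryEquiv.addRight (pt v.1 v.2)) '' sq (pt s.1 s.2) =
      sq (pt ((s + v).1 : ℤ) ((s + v).2 : ℤ)) := by
    intro v s
    rw [image_add]
    congr 1
    apply ext2 <;> simp
  refine ⟨IsometryEquiv.addRight (pt (q - p).1 (q - p).2), ?_, ?_⟩
  · ext t
    constructor
    · rintro ⟨_, ⟨s, rfl⟩, rfl⟩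
      exact ⟨s + (q - p), (key (q - p) s).symm⟩
    · rintro ⟨s, rfl⟩
      refine ⟨_, ⟨s - (q - p), rfl⟩, ?_⟩
      dsimp only
      rw [key (q - p) (s - (q - p))]
      simp
  · rw [key (q - p) p]
    simp

/-- There is an isohedral tiling of the plane by closed topological disks (the square tiling) such
that the union of any two disjoint tiles is the prototile of an isohedral tiling. -/
theorem result :
    ∃ 𝒯 : Set (Set Plane), IsTiling 𝒯 ∧ (∀ t ∈ 𝒯, IsDisk t) ∧ Isohedral 𝒯 ∧
      ∀ t₁ ∈ 𝒯, ∀ t₂ ∈ 𝒯, Disjoint t₁ t₂ →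
        ∃ 𝒰 : Set (Set Plane), IsTiling 𝒰 ∧ Monohedral 𝒰 (t₁ ∪ t₂) ∧ Isohedral 𝒰 := by
  refine ⟨squareTiling, isTiling_squareTiling, ?_, isohedral_squareTiling, ?_⟩
  · rintro _ ⟨p, rfl⟩
    exact isDisk_sq _
  · rintro _ ⟨p, rfl⟩ _ ⟨q, rfl⟩ hdis
    have hxy : 2 ≤ max |q.1 - p.1| |q.2 - p.2| := by
      by_contra hlt
      push Not at hlt
      have h1 : |q.1 - p.1| ≤ 1 := by
        have := le_max_left |q.1 - p.1| |q.2 - p.2|
        omega
      have h2 : |q.2 - p.2| ≤ 1 := by
        have := le_max_right |q.1 - p.1| |q.2 - p.2|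
        omega
      have h1' : |(q.1 : ℝ) - p.1| ≤ 1 := by exact_mod_cast h1
      have h2' : |(q.2 : ℝ) - p.2| ≤ 1 := by exact_mod_cast h2
      rw [abs_le] at h1' h2'
      have m1 : pt ((p.1 + q.1 : ℝ) / 2) ((p.2 + q.2 : ℝ) / 2) ∈ sq (pt p.1 p.2) := by
        refine ⟨?_, ?_⟩ <;> simp only [pt_zero, pt_one] <;> rw [abs_le] <;>
          constructor <;> linarith
      have m2 : pt ((p.1 + q.1 : ℝ) / 2) ((p.2 + q.2 : ℝ) / 2) ∈ sq (pt q.1 q.2) := by
        refine ⟨?_, ?_⟩ <;> simp only [pt_zero, pt_one] <;> rw [abs_le] <;>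
          constructor <;> linarith
      exact Set.disjoint_left.1 hdis m1 m2
    obtain ⟨F, h1, h2, h3⟩ := Pool.Agent.Results.MP_15d263_co.AllPairs.result (q.1 - p.1) (q.2 - p.2) hxy
    refine ⟨F, h1, ?_, h3.1⟩
    intro t ht
    obtain ⟨g, hg⟩ := h2 t ht
    refine ⟨(IsometryEquiv.addRight (pt (-p.1) (-p.2))).trans g, ?_⟩
    have hc : ∀ S : Set Plane, ((IsometryEquiv.addRight (pt (-p.1) (-p.2))).trans g) '' S =
        g '' ((IsometryEquiv.addRight (pt (-p.1) (-p.2))) '' S) := by
      intro S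
      rw [Set.image_image]
      rfl
    rw [hc, Set.image_union, image_add, image_add, ← hg, T]
    congr 3
    · apply ext2 <;> simp
    · apply ext2 <;> simp [sub_eq_add_neg]

end Pool.Agent.Results.MP_5a5b3b_co.SquareTiling
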